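import Pool.Agent.VMX.StmtsF

/-!
# Squad VMX, block F, row IDX: the index of an eigenvalue
-/

set_option autoImplicit false

namespace Pool.Agent.VMX.H87

open Pool.Agent.VMX

theorem gap (k : ℕ) (a : Fin (k + 1) → ℝ) (ha : Function.Injective a) :
    ∃ γ : ℝ, 0 < γ ∧ ∀ i j, i ≠ j → γ ≤ |a i - a j| := by
  classical
  let S : Finset (Fin (k + 1) × Fin (k + 1)) := Finset.univ.filter fun p => p.1 ≠ p.2
  by_cases hS : S.Nonempty
  · obtain ⟨p, hp, hmin⟩ := S.exists_min_image (fun p => |a p.1 - a p.2|) hS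
    have hp' : p.1 ≠ p.2 := by
      have := (Finset.mem_filter.1 hp).2
      exact this
    refine ⟨|a p.1 - a p.2|, abs_pos.2 (sub_ne_zero.2 fun h => hp' (ha h)), ?_⟩
    intro i j hij
    exact hmin (i, j) (Finset.mem_filter.2 ⟨Finset.mem_univ _, hij⟩)
  · refine ⟨1, one_pos, ?_⟩
    intro i j hij
    exact absurd ⟨(i, j), Finset.mem_filter.2 ⟨Finset.mem_univ _, hij⟩⟩ hS

theorem idx : IdxStmt := by
  intro k a ha δ hδ
  obtain ⟨γ, hγ, hgap⟩ := gap k a ha
  refine ⟨max 1 (2 / γ * Real.log (2 / δ)), ?_⟩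
  intro σ hσ e he lam hlam
  have hσ1 : 1 ≤ σ := le_trans (le_max_left _ _) hσ
  have hσ0 : 0 < σ := lt_of_lt_of_le one_pos hσ1
  have hσ2 : 2 / γ * Real.log (2 / δ) ≤ σ := le_trans (le_max_right _ _) hσ
  have hlog : Real.log (2 / δ) ≤ γ / 2 * σ := by
    have h1 : γ / 2 * (2 / γ * Real.log (2 / δ)) ≤ γ / 2 * σ :=
      mul_le_mul_of_nonneg_left hσ2 (by positivity)
    have h2 : γ / 2 * (2 / γ * Real.log (2 / δ)) = Real.log (2 / δ) := by
      field_simp
    linarith
  have hexp : Real.exp (-(γ / 2 * σ)) ≤ δ / 2 := by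
    have h1 : Real.exp (-(γ / 2 * σ)) ≤ Real.exp (-Real.log (2 / δ)) :=
      Real.exp_le_exp.2 (by linarith)
    rw [Real.exp_neg (Real.log (2 / δ)), Real.exp_log (by positivity), inv_div] at h1
    exact h1
  set c : ℝ := Real.log lam / σ with hc
  have hcσ : Real.exp (c * σ) = lam := by
    rw [hc, div_mul_cancel₀ _ hσ0.ne', Real.exp_log hlam]
  obtain ⟨i, _, hmin⟩ := (Finset.univ : Finset (Fin (k + 1))).exists_min_image
    (fun i => |a i - c|) Finset.univ_nonempty
  refine ⟨i, ?_⟩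
  intro m hm
  have h1 : γ ≤ |a m - a i| := hgap m i hm
  have h2 : |a i - c| ≤ |a m - c| := hmin m (Finset.mem_univ _)
  have h3 : |a m - a i| ≤ |a m - c| + |a i - c| := by
    have h4 : a m - a i = (a m - c) - (a i - c) := by ring
    rw [h4]
    exact abs_sub _ _
  have h5 : γ / 2 ≤ |a m - c| := by linarith
  obtain ⟨he1, he2⟩ := he m
  rcases le_or_gt c (a m) with h6 | h6
  · left
    rw [abs_of_nonneg (by linarith)] at h5
    have h7 : lam ≤ Real.exp (a m * σ) * Real.exp (-(γ / 2 * σ)) := by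
      rw [← hcσ, ← Real.exp_add]
      apply Real.exp_le_exp.2
      nlinarith [mul_le_mul_of_nonneg_right h5 hσ0.le]
    have h8 : Real.exp (a m * σ) * Real.exp (-(γ / 2 * σ)) ≤ Real.exp (a m * σ) * (δ / 2) :=
      mul_le_mul_of_nonneg_left hexp (Real.exp_pos _).le
    have h9 : δ * (Real.exp (a m * σ) / 2) ≤ δ * e m := mul_le_mul_of_nonneg_left he1 hδ.le
    linarith
  · right
    rw [abs_of_neg (by linarith)] at h5
    have h7 : Real.exp (a m * σ) ≤ lam * Real.exp (-(γ / 2 * σ)) := by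
      rw [← hcσ, ← Real.exp_add]
      apply Real.exp_le_exp.2
      nlinarith [mul_le_mul_of_nonneg_right h5 hσ0.le]
    have h8 : lam * Real.exp (-(γ / 2 * σ)) ≤ lam * (δ / 2) :=
      mul_le_mul_of_nonneg_left hexp hlam.le
    linarith

end Pool.Agent.VMX.H87
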